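import Pool.Agent.W8h56.MC.FamN

set_option autoImplicit false

open MeasureTheory Matrix Pool.Agent.Helper188.Morrey Pool.Agent.W8h56.MC

namespace Pool.Agent.Results.MP_515557_an.DirectionFields

/-- Rank-one convex functions on real `2 × 2` matrices satisfy the quasiconvexity inequality, at
every matrix `F₀`, for every Lipschitz test map `ϑ` whose direction is prescribed by a suitable
field.

(1) Let `V` be a direction field off the origin (twice continuously differentiable and nonzero, with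
every second directional derivative of `V` a nonpositive multiple of `V`).  The inequality holds for
all `ϑ` with `ϑ 0 = 0` such that `ϑ x` is a real multiple of `V x` for every `x ≠ 0`; the multiple
may depend on `x` in an arbitrary way.

(2) In particular it holds for all `ϑ` such that `ϑ x` is a real multiple of `M (L x)^k` for every
`x`, where `k ≥ 1` is an integer, `M` and `L` are invertible matrices and the power is taken in the
complex numbers. -/
theorem result (W : Matrix (Fin 2) (Fin 2) ℝ → ℝ) (hW : RankOneConvex W)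
    (F₀ : Matrix (Fin 2) (Fin 2) ℝ) (Ω : Set (Fin 2 → ℝ)) (hΩ : IsOpen Ω)
    (hb : Bornology.IsBounded Ω) (ϑ : (Fin 2 → ℝ) → (Fin 2 → ℝ)) (hK : ∃ K, LipschitzWith K ϑ)
    (h0 : ∀ x, x ∉ Ω → ϑ x = 0) :
    (∀ V : (Fin 2 → ℝ) → (Fin 2 → ℝ), DirField V → ϑ 0 = 0 →
      (∀ x, x ≠ 0 → ∃ c : ℝ, ϑ x = c • V x) →
      W F₀ * (volume Ω).toReal ≤ ∫ x in Ω, W (F₀ + grad ϑ x)) ∧
    (∀ (k : ℕ) (M L : Matrix (Fin 2) (Fin 2) ℝ), 1 ≤ k → M.det ≠ 0 → L.det ≠ 0 →
      (∀ x, ∃ c : ℝ, ϑ x = c • (M *ᵥ ![(toC (L *ᵥ x) ^ k).re, (toC (L *ᵥ x) ^ k).im])) →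
      W F₀ * (volume Ω).toReal ≤ ∫ x in Ω, W (F₀ + grad ϑ x)) := by
  obtain ⟨K, hK⟩ := hK
  refine ⟨fun V hV hz hpar => qc_direction hW F₀ hV hK hΩ hb h0 hz hpar, ?_⟩
  intro k M L hk hM hL hpar
  have hz : ϑ 0 = 0 := by
    obtain ⟨c, hc⟩ := hpar 0
    have e : toC (L *ᵥ (0 : Fin 2 → ℝ)) = 0 := by
      rw [mulVec_zero]; rfl
    rw [hc, e, zero_pow (by omega)]
    ext i
    fin_cases i <;> simp [Matrix.mulVec, dotProduct, Fin.sum_univ_two]
  refine qc_direction hW F₀ ((star_concave hk).lin hM hL) hK hΩ hb h0 hz fun x hx => ?_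
  obtain ⟨c, hc⟩ := hpar x
  have hLx : L *ᵥ x ≠ 0 := mulVec_ne hL hx
  have hF : 0 < Fk k (sq (L *ᵥ x)) := Fk_pos k (sq_pos hLx)
  refine ⟨c / Fk k (sq (L *ᵥ x)), ?_⟩
  rw [hc]
  have e := star_eq_smul (Fk k) k (L *ᵥ x)
  beta_reduce
  rw [e, mulVec_smul, smul_smul, div_mul_cancel₀ _ hF.ne']

end Pool.Agent.Results.MP_515557_an.DirectionFields
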