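import Pool.Agent.W8h56.MC.FamR

set_option autoImplicit false

open MeasureTheory Matrix Pool.Agent.Helper188.Morrey

namespace Pool.Agent.Results.MP_515557_an.FamilyComparison

/-- Let `W` be a rank-one convex function on real `2 × 2` matrices.

(1) Comparison of energies along a family of maps.  Let `Γ t x` be a twice continuously
differentiable one-parameter family of maps of the plane and `s` a Lipschitz function vanishing off
the bounded open set `Ω`.  Suppose that, for every `x` and every `l` in `(0, 1)`, at the parameter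
`t = l s(x)` either the velocity `∂ₜΓ(t, x)` vanishes, or every second directional derivative
`D²Γ(t, ·)(x)[ξ, ξ]`, multiplied by `s(x)`, is a nonpositive multiple of the velocity.  Then the
energy of `x ↦ Γ(0, x)` on `Ω` is at most that of `x ↦ Γ(s(x), x)`.

(2) In particular the quasiconvexity inequality holds at every matrix `F₀` for every test map
`x ↦ A(s(x)) x + b(s(x))` which is affine on the level sets of a Lipschitz function `s`. -/
theorem result (W : Matrix (Fin 2) (Fin 2) ℝ → ℝ) (hW : RankOneConvex W)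
    (Ω : Set (Fin 2 → ℝ)) (hΩ : IsOpen Ω) (hb : Bornology.IsBounded Ω)
    (s : (Fin 2 → ℝ) → ℝ) (hs : ∃ K, LipschitzWith K s) (h0 : ∀ x, x ∉ Ω → s x = 0) :
    (∀ Γ : ℝ → (Fin 2 → ℝ) → (Fin 2 → ℝ),
      ContDiff ℝ 2 (fun p : ℝ × (Fin 2 → ℝ) => Γ p.1 p.2) →
      (∀ x, ∀ l ∈ Set.Ioo (0:ℝ) 1, deriv (fun t => Γ t x) (l * s x) = 0 ∨
        ∀ ξ : Fin 2 → ℝ, ∃ a : ℝ, 0 ≤ a ∧ s x • fderiv ℝ (fderiv ℝ (Γ (l * s x))) x ξ ξ
          = -(a • deriv (fun t => Γ t x) (l * s x))) →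
      ∫ x in Ω, W (grad (Γ 0) x) ≤ ∫ x in Ω, W (grad (fun y => Γ (s y) y) x)) ∧
    (∀ (F₀ : Matrix (Fin 2) (Fin 2) ℝ) (A : ℝ → Matrix (Fin 2) (Fin 2) ℝ) (b : ℝ → (Fin 2 → ℝ)),
      (∀ i j, ContDiff ℝ 2 (fun t => A t i j)) → (∀ i, ContDiff ℝ 2 (fun t => b t i)) →
      A 0 = 0 → b 0 = 0 →
      W F₀ * (volume Ω).toReal
        ≤ ∫ x in Ω, W (F₀ + grad (fun y => A (s y) *ᵥ y + b (s y)) x)) := by
  obtain ⟨K, hK⟩ := hs
  exact ⟨fun Γ hΓ hc => W8h56.MC.compare_families hW hΓ hK hΩ hb h0 hc,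
    fun F₀ A b hA hbb hA0 hb0 => W8h56.MC.level_affine hW F₀ hA hbb hA0 hb0 hK hΩ hb h0⟩

end Pool.Agent.Results.MP_515557_an.FamilyComparison
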