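import Pool.Agent.W5h27.MO.Conj

/-!
# Morrey's problem for frame-indifferent functions, homogeneous of degree two or conformally
invariant, without isotropy

Let `J` be a real `2 × 2` matrix with `J² = -1`, for example the rotation by a right angle.

* Let `W` be a real function of real `2 × 2` matrices with `W ((x + y J) F) = (x² + y²) W F`; for
  the rotation `J` this says that `W` is frame-indifferent (`W (R F) = W F` for the rotations `R`)
  and positively homogeneous of degree two.  No invariance on the right is assumed.  If `W` is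
  rank-one convex then `W` is polyconvex and quasiconvex.  The same holds for functions with
  `W (F (x + y J)) = (x² + y²) W F`.
* Let `W` be a function of the matrices with positive determinant which is multiplied by
  `(x² + y²) ^ q`, `q = 0` or `q = 1`, under `F ↦ (x + y J) F` (or under `F ↦ F (x + y J)`).  If `W`
  is rank-one convex there, then `W` is polyconvex and quasiconvex there.  The case `q = 0` is
  that of conformally invariant, in general anisotropic, energies.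
-/

set_option autoImplicit false

namespace Pool.Agent.Results.MP_515557_an.FrameIndifferentQuadratic

open MeasureTheory

/-- real `2 × 2` matrices -/
abbrev M := Matrix (Fin 2) (Fin 2) ℝ

/-- the matrix `F₀ + Dϑ(x)` -/
noncomputable def Grad (F₀ : M) (ϑ : (Fin 2 → ℝ) → (Fin 2 → ℝ)) (x : Fin 2 → ℝ) : M :=
  F₀ + LinearMap.toMatrix'
    ((fderiv ℝ ϑ x : (Fin 2 → ℝ) →L[ℝ] (Fin 2 → ℝ)) : (Fin 2 → ℝ) →ₗ[ℝ] (Fin 2 → ℝ))

/-- rank-one convexity -/
def RankOneConvex (W : M → ℝ) : Prop :=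
  ∀ F H : M, H.rank = 1 → ∀ t : ℝ, 0 ≤ t → t ≤ 1 →
    W ((1 - t) • F + t • (F + H)) ≤ (1 - t) * W F + t * W (F + H)

/-- `W` is a convex function of the matrix and of its determinant -/
def Polyconvex (W : M → ℝ) : Prop :=
  ∃ P : M × ℝ → ℝ, ConvexOn ℝ Set.univ P ∧ ∀ F : M, W F = P (F, F.det)

/-- Morrey's quasiconvexity -/
def Quasiconvex (W : M → ℝ) : Prop :=
  ∀ F₀ : M, ∀ Ω : Set (Fin 2 → ℝ), IsOpen Ω → Bornology.IsBounded Ω →
    ∀ ϑ : (Fin 2 → ℝ) → (Fin 2 → ℝ), (∃ K, LipschitzWith K ϑ) → (∀ x, x ∉ Ω → ϑ x = 0) →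
      W F₀ * (volume Ω).toReal ≤ ∫ x in Ω, W (Grad F₀ ϑ x)

/-- convexity along the segments in rank-one directions between matrices with positive
determinant -/
def RankOneConvexPos (W : M → ℝ) : Prop :=
  ∀ F H : M, H.rank = 1 → 0 < F.det → 0 < (F + H).det → ∀ t : ℝ, 0 ≤ t → t ≤ 1 →
    W ((1 - t) • F + t • (F + H)) ≤ (1 - t) * W F + t * W (F + H)

/-- on the matrices with positive determinant, `W` is a convex function of the matrix and of its
determinant -/
def PolyconvexPos (W : M → ℝ) : Prop :=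
  ∃ P : M × ℝ → ℝ, ConvexOn ℝ {p : M × ℝ | 0 < p.2} P ∧ ∀ F : M, 0 < F.det → W F = P (F, F.det)

/-- the Morrey inequality at matrices `F₀` with positive determinant, for Lipschitz maps `ϑ`
vanishing off a bounded open set `Ω` such that `det (F₀ + Dϑ) > 0` almost everywhere on `Ω` and the
positive part of `W(F₀ + Dϑ)` is integrable on `Ω` -/
def QuasiconvexPos (W : M → ℝ) : Prop :=
  ∀ F₀ : M, 0 < F₀.det → ∀ Ω : Set (Fin 2 → ℝ), IsOpen Ω → Bornology.IsBounded Ω →
    ∀ ϑ : (Fin 2 → ℝ) → (Fin 2 → ℝ), (∃ K, LipschitzWith K ϑ) → (∀ x, x ∉ Ω → ϑ x = 0) →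
      (∀ᵐ x ∂(volume.restrict Ω), 0 < (Grad F₀ ϑ x).det) →
      ∫⁻ x in Ω, ENNReal.ofReal (W (Grad F₀ ϑ x)) ≠ ⊤ →
      IntegrableOn (fun x => W (Grad F₀ ϑ x)) Ω ∧
        W F₀ * (volume Ω).toReal ≤ ∫ x in Ω, W (Grad F₀ ϑ x)

/-- Let `J² = -1`.  (1) If `W : ℝ^{2×2} → ℝ` satisfies `W ((x + y J) F) = (x² + y²) W F` for all
`x, y, F`, or `W (F (x + y J)) = (x² + y²) W F` for all `x, y, F`, and `W` is rank-one convex, then
`W` is polyconvex and quasiconvex.  (2) If `W` satisfies one of these identities with the factor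
`(x² + y²) ^ q`, `q ∈ {0, 1}`, for all matrices `F` with positive determinant and all `(x, y) ≠ 0`,
and `W` is rank-one convex on the matrices with positive determinant, then `W` is polyconvex and
quasiconvex on the matrices with positive determinant. -/
theorem result (J : M) (hJ : J * J = -1) :
    (∀ W : M → ℝ,
      ((∀ (x y : ℝ) (F : M), W (x • F + y • (J * F)) = (x ^ 2 + y ^ 2) * W F) ∨
        (∀ (x y : ℝ) (F : M), W (x • F + y • (F * J)) = (x ^ 2 + y ^ 2) * W F)) →
      RankOneConvex W → Polyconvex W ∧ Quasiconvex W) ∧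
    (∀ (q : ℕ), q ≤ 1 → ∀ W : M → ℝ,
      ((∀ (x y : ℝ) (F : M), (x ≠ 0 ∨ y ≠ 0) → 0 < F.det →
          W (x • F + y • (J * F)) = (x ^ 2 + y ^ 2) ^ q * W F) ∨
        (∀ (x y : ℝ) (F : M), (x ≠ 0 ∨ y ≠ 0) → 0 < F.det →
          W (x • F + y • (F * J)) = (x ^ 2 + y ^ 2) ^ q * W F)) →
      RankOneConvexPos W → PolyconvexPos W ∧ QuasiconvexPos W) := by
  refine ⟨fun W hinv hW => ?_, fun q hq W hinv hW => ?_⟩
  · have hseg := Pool.Agent.W5h27.MO.seg_of_rank hW
    have hc : Continuous W := Pool.Agent.Helper188.Morrey.RankOneConvex.continuous hW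
    have hnl : ∀ F₀ : M, Pool.Agent.W5h27.MO.NlAt W Set.univ F₀ := by
      intro F₀
      rcases hinv with h | h
      · exact Pool.Agent.W5h27.MO.left2 hJ hseg hc h F₀
      · exact Pool.Agent.W5h27.MO.right2 hJ hseg hc h F₀
    refine ⟨?_, ?_⟩
    · obtain ⟨P, h1, h2⟩ := Pool.Agent.W5h27.MO.pcx_of_nl convex_univ Set.univ_nonempty
        (fun F₀ _ => hnl F₀)
      refine ⟨P, ?_, fun F => h2 F (Set.mem_univ _)⟩
      simpa using h1
    · intro F₀ Ω hΩ hb ϑ hϑ h0
      exact Pool.Agent.W5h27.MO.morrey_of_nl hc (hnl F₀) hΩ hb hϑ h0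
  · have hseg := Pool.Agent.W5h27.MO.segP_of_rank hW
    have hnl : ∀ F₀ : M, 0 < F₀.det → Pool.Agent.W5h27.MO.NlAt W (Set.Ioi 0) F₀ := by
      intro F₀ hF₀
      rcases hinv with h | h
      · exact Pool.Agent.W5h27.MO.leftP hJ hseg hq h hF₀
      · exact Pool.Agent.W5h27.MO.rightP hJ hseg hq h hF₀
    refine ⟨?_, ?_⟩
    · exact Pool.Agent.W5h27.MO.pcx_of_nl (convex_Ioi 0) ⟨1, Set.mem_Ioi.2 one_pos⟩ hnl
    · intro F₀ hF₀ Ω hΩ hb ϑ hϑ h0 hpos hfin
      exact Pool.Agent.W5h27.MO.morrey_pos hnl hF₀ hΩ hb hϑ h0 hpos hfin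

end Pool.Agent.Results.MP_515557_an.FrameIndifferentQuadratic
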