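import Pool.Agent.W8h56.MC.ParabCal

set_option autoImplicit false

open MeasureTheory Matrix Pool.Agent.Helper188.Morrey Pool.Agent.W8h56.MC

namespace Pool.Agent.Results.MP_515557_an.MatrixFields

/-- Rank-one convex functions on real `2 × 2` matrices satisfy the quasiconvexity inequality, at
every matrix `F₀`,

(1) for every Lipschitz test map `ϑ x = A x x + b x` calibrated by a matrix field `A` and a vector
field `b`;

(2) in particular for every outward parabolic test map: with `p x = Dϑ(x) x - ϑ x` and a bounded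
direction field `τ x = x^⊥ + m(x) x`, at each point other than the origin either `p` vanishes or
`D²ϑ[τ, τ]` is a multiple `c p` with `c ≥ 1 + m² - Dm[τ]`. -/
theorem result (W : Matrix (Fin 2) (Fin 2) ℝ → ℝ) (hW : RankOneConvex W)
    (F₀ : Matrix (Fin 2) (Fin 2) ℝ) (Ω : Set (Fin 2 → ℝ)) (hΩ : IsOpen Ω)
    (hb : Bornology.IsBounded Ω) (ϑ : (Fin 2 → ℝ) → (Fin 2 → ℝ)) (hK : ∃ K, LipschitzWith K ϑ)
    (h0 : ∀ x, x ∉ Ω → ϑ x = 0) :
    (∀ (A : (Fin 2 → ℝ) → Matrix (Fin 2) (Fin 2) ℝ) (b : (Fin 2 → ℝ) → (Fin 2 → ℝ)),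
      Calibrates A b ϑ → W F₀ * (volume Ω).toReal ≤ ∫ x in Ω, W (F₀ + grad ϑ x)) ∧
    (∀ m : (Fin 2 → ℝ) → ℝ, Outward m ϑ →
      W F₀ * (volume Ω).toReal ≤ ∫ x in Ω, W (F₀ + grad ϑ x)) := by
  obtain ⟨K, hK⟩ := hK
  exact ⟨fun A b h => calib h hK hΩ hb h0 hW F₀, fun m h => h.qc hK hΩ hb h0 hW F₀⟩

end Pool.Agent.Results.MP_515557_an.MatrixFields
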